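import Pool.Agent.Run7.h648.AC.LOGF
import Pool.Agent.Helper202.Univ

/-!
# Project AC (helper104), piece HARM, by helper648
-/

set_option autoImplicit false

namespace Run7.h648.AC

open Pool.Agent.Run7.h104.AC MeasureTheory Complex Set Filter Topology Metric

theorem log_ball (r : ℝ) :
    IntegrableOn (fun z : ℂ => Real.log ‖z‖) (Metric.ball 0 r) volume := by
  rw [integrableOn_fun_norm_addHaar (μ := (volume : Measure ℂ)) (f := Real.log) (r := r)]
  rw [Complex.finrank_real_complex]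
  have : (fun y : ℝ => y ^ (2 - 1) • Real.log y) = fun y => y * Real.log y := by
    funext y; simp
  rw [this]
  apply IntegrableOn.mono_set (t := Icc 0 r) _ Ioo_subset_Icc_self
  exact (Real.continuous_mul_log.continuousOn).integrableOn_Icc

theorem log_locInt (a : ℂ) : LocallyIntegrable (fun z : ℂ => Real.log ‖z - a‖) volume := by
  intro x
  refine ⟨Metric.ball a (‖x - a‖ + 1), Metric.isOpen_ball.mem_nhds ?_, ?_⟩
  · rw [Metric.mem_ball, dist_eq_norm]; linarith
  · have h1 := log_ball (‖x - a‖ + 1)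
    have h2 : MeasurePreserving (fun z : ℂ => z - a) volume volume :=
      measurePreserving_sub_right volume a
    have h3 := (h2.integrableOn_comp_preimage (MeasurableEquiv.subRight a).measurableEmbedding
      (f := fun z : ℂ => Real.log ‖z‖) (s := Metric.ball 0 (‖x - a‖ + 1))).mpr h1
    have h4 : (fun z : ℂ => z - a) ⁻¹' (Metric.ball 0 (‖x - a‖ + 1)) =
        Metric.ball a (‖x - a‖ + 1) := by
      ext z; simp [dist_eq_norm]
    rw [h4] at h3
    exact h3

theorem Ann_sub (δ : ℝ) : Ann δ ⊆ closedBall (0 : ℂ) 1 := by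
  intro z hz
  rw [mem_closedBall_zero_iff]
  exact hz.2.le

theorem Ann_meas (δ : ℝ) : MeasurableSet (Ann δ) := by
  have h1 : IsOpen (Ann δ) := by
    have : Ann δ = {z : ℂ | δ < ‖z‖} ∩ {z : ℂ | ‖z‖ < 1} := rfl
    rw [this]
    exact (isOpen_lt continuous_const continuous_norm).inter
      (isOpen_lt continuous_norm continuous_const)
  exact h1.measurableSet

theorem Rw_meas : Measurable Rw := by
  unfold Rw
  fun_prop

theorem Rw_bound (δ : ℝ) (hδ : 0 < δ) (z : ℂ) (hz : z ∈ Ann δ) : ‖Rw z‖ ≤ 4 / δ ^ 3 := by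
  have h1 : ‖1 + z‖ ≤ 2 := by
    calc ‖1 + z‖ ≤ ‖(1 : ℂ)‖ + ‖z‖ := norm_add_le _ _
      _ ≤ 1 + 1 := by
        rw [norm_one]
        exact add_le_add_right hz.2.le 1
      _ = 2 := by norm_num
  have h2 : δ ^ 3 ≤ ‖z‖ ^ 3 := pow_le_pow_left₀ hδ.le hz.1.le 3
  have h3 : 0 ≤ Rw z := by unfold Rw; positivity
  rw [Real.norm_eq_abs, abs_of_nonneg h3]
  unfold Rw
  have h4 : ‖1 + z‖ ^ 2 ≤ 4 := by
    nlinarith [norm_nonneg (1 + z)]
  exact div_le_div₀ (by norm_num) h4 (by positivity) h2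

/-- a weight times an integrable function -/
theorem Rw_int (δ : ℝ) (hδ : 0 < δ) (g : ℂ → ℝ) (hg : IntegrableOn g (Ann δ)) :
    IntegrableOn (fun z => Rw z * g z) (Ann δ) := by
  apply Integrable.bdd_mul (c := 4 / δ ^ 3) hg
  · exact Rw_meas.aestronglyMeasurable
  · filter_upwards [ae_restrict_mem (Ann_meas δ)] with z hz
    exact Rw_bound δ hδ z hz

theorem t_HARM : S_LOGF → S_HARM := by
  intro hL R0 β F hU
  obtain ⟨hR, hβ, hF, hinj, hF0, hF1, hF2⟩ := hU
  have hR0 : 0 < R0 := by linarith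
  have h0 : (0 : ℂ) ∈ ball (0 : ℂ) R0 := mem_ball_self hR0
  have hβC : (β : ℂ) ≠ 0 := by exact_mod_cast hβ.ne'
  have hFd : DifferentiableOn ℂ (deriv F) (ball 0 R0) := hF.deriv isOpen_ball
  have hFne : ∀ z ∈ ball (0 : ℂ) R0, deriv F z ≠ 0 := fun z hz =>
    Pool.Agent.Helper202.Univ.deriv_ne_zero isOpen_ball hF hinj hz
  set Q : ℂ → ℂ := dslope F 0 with hQ
  have hQd : DifferentiableOn ℂ Q (ball 0 R0) :=
    (Complex.differentiableOn_dslope (isOpen_ball.mem_nhds h0)).mpr hF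
  have hQ0 : Q 0 = β := by rw [hQ, dslope_same, hF1]
  have hFQ : ∀ z, F z = z * Q z := by
    intro z
    have := sub_smul_dslope F 0 z
    rw [hF0, sub_zero, sub_zero, smul_eq_mul] at this
    exact this.symm
  have hQne : ∀ z ∈ ball (0 : ℂ) R0, Q z ≠ 0 := by
    intro z hz h
    by_cases hz0 : z = 0
    · rw [hz0, hQ0] at h; exact hβC h
    · have h1 : F z = F 0 := by rw [hFQ z, h, mul_zero, hF0]
      exact hz0 (hinj hz h0 h1)
  have hQ1 : deriv Q 0 = ((β * (2 - 3 * β / 2) : ℝ) : ℂ) := by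
    have hQdd : DifferentiableOn ℂ (deriv Q) (ball 0 R0) := hQd.deriv isOpen_ball
    have h1 : deriv F =ᶠ[𝓝 0] fun z => Q z + z * deriv Q z := by
      filter_upwards [isOpen_ball.mem_nhds h0] with z hz
      have h2 : HasDerivAt Q (deriv Q z) z :=
        (hQd.differentiableAt (isOpen_ball.mem_nhds hz)).hasDerivAt
      have h3 : HasDerivAt (fun z => z * Q z) (1 * Q z + z * deriv Q z) z :=
        (hasDerivAt_id z).mul h2
      have h4 : F = fun z => z * Q z := funext hFQ
      rw [h4, h3.deriv, one_mul]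
    have h2 : HasDerivAt Q (deriv Q 0) 0 :=
      (hQd.differentiableAt (isOpen_ball.mem_nhds h0)).hasDerivAt
    have h3 : HasDerivAt (deriv Q) (deriv (deriv Q) 0) 0 :=
      (hQdd.differentiableAt (isOpen_ball.mem_nhds h0)).hasDerivAt
    have h4 : HasDerivAt (fun z => Q z + z * deriv Q z)
        (deriv Q 0 + (1 * deriv Q 0 + 0 * deriv (deriv Q) 0)) 0 :=
      h2.add ((hasDerivAt_id (0 : ℂ)).mul h3)
    rw [h1.deriv_eq, h4.deriv] at hF2
    push_cast at hF2 ⊢
    linear_combination hF2 / 2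
  obtain ⟨L1, hL1d, hL1, hL1'⟩ := hL R0 (deriv F) hR0 hFd hFne
  obtain ⟨L2, hL2d, hL2, hL2'⟩ := hL R0 Q hR0 hQd hQne
  obtain ⟨L3, hL3d, hL3, hL3'⟩ := hL 1 (fun z => 1 + z) one_pos (by fun_prop) (by
    intro z hz h
    rw [mem_ball_zero_iff] at hz
    have : z = -1 := by linear_combination h
    rw [this] at hz
    simp at hz)
  have hsub : ball (0 : ℂ) 1 ⊆ ball 0 R0 := ball_subset_ball hR.le
  have hre : ∀ (L f : ℂ → ℂ) (z : ℂ), Complex.exp (L z) = f z → (L z).re = Real.log ‖f z‖ := by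
    intro L f z h
    rw [← h, Complex.norm_exp, Real.log_exp]
  have h01 : (0 : ℂ) ∈ ball (0 : ℂ) 1 := mem_ball_self one_pos
  have hlogβ : (Real.log β : ℂ).re = Real.log β := Complex.ofReal_re _
  set H : ℂ → ℂ := fun z => 2 * L1 z - 3 * L2 z - 2 * L3 z + (Real.log β : ℂ) with hH
  have hHre : ∀ z, (H z).re = 2 * (L1 z).re - 3 * (L2 z).re - 2 * (L3 z).re + Real.log β := by
    intro z
    simp only [hH, Complex.add_re, Complex.sub_re, Complex.mul_re, Complex.ofReal_re]
    simp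
  have hhar : ∀ z : ℂ, z ≠ 0 → ‖z‖ < 1 → har β F z = 2 * (L1 z).re - 3 * (L2 z).re + Real.log β
      - 2 * Real.log ‖1 + z‖ := by
    intro z hz hz1
    have hzb : z ∈ ball (0 : ℂ) 1 := mem_ball_zero_iff.mpr hz1
    rw [har, hre L1 (deriv F) z (hL1 z (hsub hzb)), hre L2 Q z (hL2 z (hsub hzb)), hFQ z, norm_mul,
      Real.log_mul (norm_ne_zero_iff.mpr hz) (norm_ne_zero_iff.mpr (hQne z (hsub hzb)))]
    ring
  refine ⟨H, ?_, ?_, ?_, ?_, ?_⟩
  · exact (((hL1d.mono hsub).const_mul 2).sub ((hL2d.mono hsub).const_mul 3)).sub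
      (hL3d.const_mul 2) |>.add_const _
  · rw [hHre, hre L1 (deriv F) 0 (hL1 0 h0), hre L2 Q 0 (hL2 0 h0),
      hre L3 (fun z => 1 + z) 0 (hL3 0 h01), hF1, hQ0]
    simp only [Complex.norm_real, Real.norm_eq_abs, abs_of_pos hβ, add_zero, norm_one,
      Real.log_one]
    ring
  · have e1 : HasDerivAt L1 (deriv L1 0) 0 :=
      (hL1d.differentiableAt (isOpen_ball.mem_nhds h0)).hasDerivAt
    have e2 : HasDerivAt L2 (deriv L2 0) 0 :=
      (hL2d.differentiableAt (isOpen_ball.mem_nhds h0)).hasDerivAt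
    have e3 : HasDerivAt L3 (deriv L3 0) 0 :=
      (hL3d.differentiableAt (isOpen_ball.mem_nhds h01)).hasDerivAt
    have e4 : HasDerivAt H (2 * deriv L1 0 - 3 * deriv L2 0 - 2 * deriv L3 0) 0 :=
      (((e1.const_mul 2).sub (e2.const_mul 3)).sub (e3.const_mul 2)).add_const _
    have e5 : deriv (fun z : ℂ => 1 + z) 0 = 1 := by
      have : HasDerivAt (fun z : ℂ => 1 + z) 1 0 := (hasDerivAt_id (0 : ℂ)).const_add 1
      exact this.deriv
    rw [e4.deriv, hL1', hL2', hL3', hF1, hF2, hQ0, hQ1, e5]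
    have e6 : (2 * (((2 * (β * (2 - 3 * β / 2)) : ℝ) : ℂ) / (β : ℂ)) -
        3 * (((β * (2 - 3 * β / 2) : ℝ) : ℂ) / (β : ℂ)) - 2 * (1 / (1 + 0)) : ℂ) =
        ((-(3 * β / 2) : ℝ) : ℂ) := by
      push_cast
      field_simp
      ring
    rw [e6, Complex.ofReal_re]
  · intro z hz hz1
    have hzb : z ∈ ball (0 : ℂ) 1 := mem_ball_zero_iff.mpr hz1
    rw [hhar z hz hz1, hHre, hre L3 (fun z => 1 + z) z (hL3 z hzb)]
    ring
  · intro δ hδ hδ1
    apply Rw_int δ hδ
    have hcb : closedBall (0 : ℂ) 1 ⊆ ball 0 R0 := closedBall_subset_ball hR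
    have i1 : IntegrableOn (fun z => 2 * (L1 z).re - 3 * (L2 z).re + Real.log β) (Ann δ) := by
      apply IntegrableOn.mono_set _ (Ann_sub δ)
      apply ContinuousOn.integrableOn_compact (isCompact_closedBall (0 : ℂ) 1)
      have c1 : ContinuousOn (fun z => (L1 z).re) (closedBall (0 : ℂ) 1) :=
        Complex.continuous_re.comp_continuousOn (hL1d.continuousOn.mono hcb)
      have c2 : ContinuousOn (fun z => (L2 z).re) (closedBall (0 : ℂ) 1) :=
        Complex.continuous_re.comp_continuousOn (hL2d.continuousOn.mono hcb)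
      exact ((continuousOn_const.mul c1).sub (continuousOn_const.mul c2)).add continuousOn_const
    have i2 : IntegrableOn (fun z : ℂ => 2 * Real.log ‖1 + z‖) (Ann δ) := by
      apply Integrable.const_mul
      apply IntegrableOn.mono_set _ (Ann_sub δ)
      have := (log_locInt (-1)).integrableOn_isCompact (isCompact_closedBall (0 : ℂ) 1)
      apply this.congr_fun _ measurableSet_closedBall
      intro z _
      simp only [sub_neg_eq_add]
      rw [add_comm]
    have i3 := i1.sub i2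
    apply IntegrableOn.congr_fun i3 _ (Ann_meas δ)
    intro z hz
    have hz0 : z ≠ 0 := by
      rintro rfl
      have := hz.1
      rw [norm_zero] at this
      linarith
    simp only [Pi.sub_apply]
    rw [hhar z hz0 hz.2]

end Run7.h648.AC
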