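import Pool.Agent.Run7.h104.AC.Defs

set_option autoImplicit false

/-! Piece KOE of project AC (MP_0b1b3b_an): the Koebe function and the integral of the weight. -/

namespace Run7.h648.AC

open MeasureTheory Complex Set Filter Topology Metric Pool.Agent.Run7.h104.AC

lemma one_sub_ne {z : ℂ} (hz : z ∈ ball (0 : ℂ) 1) : 1 - z ≠ 0 := by
  intro h
  have h2 : z = 1 := by linear_combination -h
  rw [h2] at hz
  simp at hz

lemma Kb_hasDeriv {z : ℂ} (hz : z ∈ ball (0 : ℂ) 1) :
    HasDerivAt Kb ((1 + z) / (1 - z) ^ 3) z := by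
  have h1 := one_sub_ne hz
  have h2 : HasDerivAt (fun z : ℂ => (1 - z) ^ 2) (2 * (1 - z) * (-1)) z := by
    have := ((hasDerivAt_id z).const_sub 1).fun_pow 2
    simpa using this
  have h := (hasDerivAt_id z).div h2 (pow_ne_zero 2 h1)
  refine h.congr_deriv ?_
  simp only [id]
  field_simp
  ring

lemma Kb_inj : InjOn Kb (ball (0 : ℂ) 1) := by
  intro a ha b hb h
  have h1 := one_sub_ne ha
  have h2 := one_sub_ne hb
  unfold Kb at h
  rw [div_eq_div_iff (pow_ne_zero 2 h1) (pow_ne_zero 2 h2)] at h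
  have h3 : (a - b) * (1 - a * b) = 0 := by linear_combination h
  rcases mul_eq_zero.1 h3 with h4 | h4
  · exact sub_eq_zero.1 h4
  · exfalso
    have h5 : a * b ∈ ball (0 : ℂ) 1 := by
      simp only [mem_ball, dist_zero_right, norm_mul] at *
      calc ‖a‖ * ‖b‖ ≤ ‖a‖ * 1 := by gcongr
        _ < 1 := by linarith
    exact one_sub_ne h5 h4

lemma Kb_meas : Measurable Kb := by
  unfold Kb
  fun_prop

lemma Kb_surj {k : ℂ} (hk : k.im ≠ 0) : ∃ z ∈ ball (0 : ℂ) 1, Kb z = k := by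
  have hk0 : k ≠ 0 := by
    rintro rfl
    simp at hk
  -- a root of norm less than one is enough
  have key : ∀ z : ℂ, k * (1 - z) ^ 2 = z → ‖z‖ < 1 → ∃ z ∈ ball (0 : ℂ) 1, Kb z = k := by
    intro z h hz
    have hz' : z ∈ ball (0 : ℂ) 1 := by simpa using hz
    refine ⟨z, hz', ?_⟩
    unfold Kb
    rw [div_eq_iff (pow_ne_zero 2 (one_sub_ne hz')), h]
  have nosph : ∀ z : ℂ, k * (1 - z) ^ 2 = z → ‖z‖ ≠ 1 := by
    intro z h hz
    have hz1 : z ≠ 1 := by
      rintro rfl
      simp at h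
    have hzz : z * (starRingEnd ℂ) z = 1 := by
      rw [Complex.mul_conj, Complex.normSq_eq_norm_sq, hz]
      simp
    have h2 : (starRingEnd ℂ) k * (1 - (starRingEnd ℂ) z) ^ 2 = (starRingEnd ℂ) z := by
      have := congrArg (starRingEnd ℂ) h
      simpa using this
    have h3 : (starRingEnd ℂ) k * (1 - z) ^ 2 = z := by
      have e1 : z ^ 2 * ((starRingEnd ℂ) k * (1 - (starRingEnd ℂ) z) ^ 2)
          = (starRingEnd ℂ) k * (1 - z) ^ 2 := by
        have : z * (1 - (starRingEnd ℂ) z) = z - 1 := by rw [mul_sub, hzz, mul_one]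
        calc z ^ 2 * ((starRingEnd ℂ) k * (1 - (starRingEnd ℂ) z) ^ 2)
            = (starRingEnd ℂ) k * (z * (1 - (starRingEnd ℂ) z)) ^ 2 := by ring
          _ = (starRingEnd ℂ) k * (1 - z) ^ 2 := by rw [this]; ring
      rw [← e1, h2, pow_two, mul_assoc, hzz, mul_one]
    have h4 : (starRingEnd ℂ) k = k := by
      have : ((starRingEnd ℂ) k - k) * (1 - z) ^ 2 = 0 := by linear_combination h3 - h
      rcases mul_eq_zero.1 this with h5 | h5
      · exact sub_eq_zero.1 h5
      · exfalso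
        exact hz1 (by linear_combination -(pow_eq_zero_iff (two_ne_zero)).1 h5)
    exact hk (Complex.conj_eq_iff_im.1 h4)
  obtain ⟨s, hs⟩ := IsAlgClosed.exists_pow_nat_eq (4 * k + 1) (n := 2) (by norm_num)
  have r1 : k * (1 - (2 * k + 1 + s) / (2 * k)) ^ 2 = (2 * k + 1 + s) / (2 * k) := by
    field_simp
    linear_combination hs
  have r2 : k * (1 - (2 * k + 1 - s) / (2 * k)) ^ 2 = (2 * k + 1 - s) / (2 * k) := by
    field_simp
    linear_combination hs
  have hp : (2 * k + 1 + s) / (2 * k) * ((2 * k + 1 - s) / (2 * k)) = 1 := by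
    field_simp
    linear_combination -hs
  have hpn : ‖(2 * k + 1 + s) / (2 * k)‖ * ‖(2 * k + 1 - s) / (2 * k)‖ = 1 := by
    rw [← norm_mul, hp, norm_one]
  rcases lt_trichotomy ‖(2 * k + 1 + s) / (2 * k)‖ 1 with h | h | h
  · exact key _ r1 h
  · exact absurd h (nosph _ r1)
  · refine key _ r2 ?_
    by_contra hc
    rw [not_lt] at hc
    nlinarith

lemma im_null : volume {w : ℂ | w.im = 0} = 0 := by
  have h := Measure.addHaar_submodule (volume : Measure ℂ)
    (LinearMap.ker (Complex.imLm : ℂ →ₗ[ℝ] ℝ)) (by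
      intro h
      have : Complex.I ∈ LinearMap.ker (Complex.imLm : ℂ →ₗ[ℝ] ℝ) := by
        rw [h]; trivial
      simp at this)
  convert h using 2
  ext w
  simp

lemma radial (lam : ℝ) (hl : 0 < lam) :
    ∫⁻ w in {w : ℂ | lam ≤ ‖w‖}, ENNReal.ofReal ((‖w‖ ^ 3)⁻¹)
      = ENNReal.ofReal (2 * Real.pi / lam) := by
  have hms : MeasurableSet {w : ℂ | lam ≤ ‖w‖} := measurableSet_le measurable_const measurable_norm
  rw [← lintegral_indicator hms]
  rw [← Complex.lintegral_comp_polarCoord_symm]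
  rw [polarCoord_target]
  have e1 : ∫⁻ p in Ioi (0 : ℝ) ×ˢ Ioo (-Real.pi) Real.pi, ENNReal.ofReal p.1 •
      ({w : ℂ | lam ≤ ‖w‖}.indicator (fun w => ENNReal.ofReal ((‖w‖ ^ 3)⁻¹)))
        (Complex.polarCoord.symm p)
      = ∫⁻ p in Ici lam ×ˢ Ioo (-Real.pi) Real.pi, ENNReal.ofReal (p.1 ^ (-2 : ℝ)) := by
    have hsub : Ici lam ×ˢ Ioo (-Real.pi) Real.pi ⊆ Ioi (0 : ℝ) ×ˢ Ioo (-Real.pi) Real.pi := by
      intro p hp
      exact ⟨lt_of_lt_of_le hl hp.1, hp.2⟩
    rw [← lintegral_indicator (measurableSet_Ioi.prod measurableSet_Ioo),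
      ← lintegral_indicator (measurableSet_Ici.prod measurableSet_Ioo)]
    congr 1
    funext p
    by_cases hp : p ∈ Ici lam ×ˢ Ioo (-Real.pi) Real.pi
    · have h0 : 0 < p.1 := lt_of_lt_of_le hl hp.1
      rw [indicator_of_mem hp, indicator_of_mem (hsub hp), indicator_of_mem]
      · rw [Complex.norm_polarCoord_symm, abs_of_pos h0, smul_eq_mul,
          ← ENNReal.ofReal_mul h0.le]
        congr 1
        rw [Real.rpow_neg h0.le, Real.rpow_two]
        field_simp
      · rw [mem_setOf_eq, Complex.norm_polarCoord_symm, abs_of_pos h0]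
        exact hp.1
    · rw [indicator_of_notMem hp]
      by_cases hq : p ∈ Ioi (0 : ℝ) ×ˢ Ioo (-Real.pi) Real.pi
      · rw [indicator_of_mem hq, indicator_of_notMem]
        · simp
        · intro h
          rw [mem_setOf_eq, Complex.norm_polarCoord_symm, abs_of_pos hq.1] at h
          exact hp ⟨h, hq.2⟩
      · rw [indicator_of_notMem hq]
  rw [e1, Measure.volume_eq_prod, ← Measure.prod_restrict]
  rw [lintegral_prod _ (by
    apply Measurable.aemeasurable
    fun_prop)]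
  simp only [lintegral_const, Measure.restrict_apply MeasurableSet.univ, univ_inter]
  rw [lintegral_mul_const _ (by fun_prop), setLIntegral_congr Ioi_ae_eq_Ici.symm]
  rw [← ofReal_integral_eq_lintegral_ofReal (integrableOn_Ioi_rpow_of_lt (by norm_num) hl)
    ((ae_restrict_iff' measurableSet_Ioi).2 (ae_of_all _ fun x hx =>
      Real.rpow_nonneg (hl.le.trans (le_of_lt hx)) _)),
    integral_Ioi_rpow_of_lt (by norm_num) hl, Real.volume_Ioo]
  rw [← ENNReal.ofReal_mul (by
    norm_num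
    exact Real.rpow_nonneg hl.le _)]
  congr 1
  norm_num
  rw [Real.rpow_neg_one]
  ring

theorem t_KOE : S_CV → S_KOE := by
  intro hCV lam hl
  set E : Set ℂ := ball (0 : ℂ) 1 ∩ {z | lam ≤ ‖Kb z‖} with hE
  have hEm : MeasurableSet E :=
    measurableSet_ball.inter (measurableSet_le measurable_const Kb_meas.norm)
  obtain ⟨-, h1⟩ := hCV (ball 0 1) Kb isOpen_ball
    (fun z hz => (Kb_hasDeriv hz).differentiableAt.differentiableWithinAt) Kb_inj E
    inter_subset_left hEm
  have h2 := h1 (fun w => ENNReal.ofReal ((‖w‖ ^ 3)⁻¹))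
  have h3 : ∫⁻ z in E, ENNReal.ofReal (Rw z)
      = ∫⁻ z in E, ENNReal.ofReal (‖deriv Kb z‖ ^ 2) * ENNReal.ofReal ((‖Kb z‖ ^ 3)⁻¹) := by
    refine setLIntegral_congr_fun hEm fun z hz => ?_
    have hz1 := one_sub_ne hz.1
    have hz0 : z ≠ 0 := by
      rintro rfl
      have := hz.2
      simp only [mem_setOf_eq, Kb, zero_div, norm_zero] at this
      linarith
    rw [← ENNReal.ofReal_mul (by positivity), (Kb_hasDeriv hz.1).deriv]
    congr 1
    unfold Rw Kb
    rw [norm_div, norm_div, norm_pow, norm_pow]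
    have hn1 : ‖1 - z‖ ≠ 0 := norm_ne_zero_iff.2 hz1
    have hn0 : ‖z‖ ≠ 0 := norm_ne_zero_iff.2 hz0
    field_simp
  rw [h3, ← h2, ← radial lam hl]
  refine setLIntegral_congr ?_
  refine (HasSubset.Subset.eventuallyLE ?_).antisymm ?_
  · rintro w ⟨z, hz, rfl⟩
    exact hz.2
  · rw [ae_le_set]
    refine measure_mono_null ?_ im_null
    rintro w ⟨hw, hw2⟩
    by_contra him
    obtain ⟨z, hz, rfl⟩ := Kb_surj him
    exact hw2 ⟨z, ⟨hz, hw⟩, rfl⟩

end Run7.h648.AC
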