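import Pool.Agent.Run7.h104.AC.Defs

/-!
# Project AC (helper104), piece LOGF, by helper648
-/

set_option autoImplicit false

namespace Run7.h648.AC

open Pool.Agent.Run7.h104.AC MeasureTheory Complex Set Filter Topology Metric

theorem t_LOGF : S_LOGF := by
  intro R f hR hf hne
  have h0 : (0 : ℂ) ∈ ball (0 : ℂ) R := mem_ball_self hR
  have hd : DifferentiableOn ℂ (deriv f) (ball 0 R) := hf.deriv isOpen_ball
  have hq : DifferentiableOn ℂ (fun z => deriv f z / f z) (ball 0 R) := hd.div hf hne
  obtain ⟨g, hg0, hg⟩ := hq.isExactOn_ball.with_val_at 0 (Complex.log (f 0))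
  have hgd : DifferentiableOn ℂ g (ball 0 R) := fun z hz =>
    (hg z hz).differentiableAt.differentiableWithinAt
  refine ⟨g, hgd, ?_, (hg 0 h0).deriv⟩
  intro z hz
  have hK : ∀ w ∈ ball (0 : ℂ) R, HasDerivAt (fun w => f w * Complex.exp (-g w)) 0 w := by
    intro w hw
    have h1 : HasDerivAt f (deriv f w) w := (hf.differentiableAt (isOpen_ball.mem_nhds hw)).hasDerivAt
    have h2 : HasDerivAt (fun w => Complex.exp (-g w))
        (Complex.exp (-g w) * (-(deriv f w / f w))) w := (hg w hw).neg.cexp
    have h3 := h1.mul h2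
    have h4 := hne w hw
    have h5 : f w * (Complex.exp (-g w) * (-(deriv f w / f w))) =
        -(deriv f w * Complex.exp (-g w)) := by
      field_simp
    have h6 : deriv f w * Complex.exp (-g w) +
        f w * (Complex.exp (-g w) * (-(deriv f w / f w))) = 0 := by
      rw [h5]; ring
    rw [← h6]
    exact h3
  have hconst : f z * Complex.exp (-g z) = f 0 * Complex.exp (-g 0) :=
    isOpen_ball.is_const_of_deriv_eq_zero (convex_ball (0 : ℂ) R).isPreconnected
      (fun w hw => (hK w hw).differentiableAt.differentiableWithinAt)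
      (fun w hw => (hK w hw).deriv) hz h0
  have h5 : f 0 * Complex.exp (-g 0) = 1 := by
    rw [hg0, Complex.exp_neg, Complex.exp_log (hne 0 h0)]
    exact mul_inv_cancel₀ (hne 0 h0)
  rw [h5, Complex.exp_neg] at hconst
  have h6 := Complex.exp_ne_zero (g z)
  field_simp at hconst
  exact hconst.symm

end Run7.h648.AC
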